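import Mathlib

/-! Certificates: models of `K₅` or `K₃,₃` in the self-complementary graphs on nine vertices. -/

set_option autoImplicit false

namespace H721R3.K9

/-- orbit indices -/
def idxN1 : ℕ := 569596542903962597902270704791199173855802997809273505520827539968748204725417097680813534945536

/-- parities -/
def parN1 : ℕ := 805597720541327920953504

/-- exponents -/
def kN1 : ℕ := 987300674634933227643889892431656041930211561937206463417080076408435685965979315015523563995136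

/-- representatives -/
def repU1 : List ℕ := [0, 0, 0, 0, 0]

/-- representatives -/
def repV1 : List ℕ := [1, 2, 3, 4, 8]

/-- the models -/
def models1 : List (List (List ℕ)) := [
  [[1], [3], [5], [7], [8]],
  [[3], [1, 4], [5], [6], [0, 2, 7], [8]],
  [[0, 1], [3], [7], [2], [6], [8]],
  [[1], [0, 3], [5], [2], [6], [8]],
  [[2, 3], [5], [7], [4], [0, 1, 6], [8]],
  [[1, 2], [3], [5], [0, 4], [6], [8]],
  [[0, 1], [2, 3], [5], [7], [8]],
  [[2], [4], [5], [0], [6], [1, 8]],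
  [[1, 2], [0, 3], [5], [7], [8]],
  [[0, 1], [2, 5], [7], [4], [6], [8]],
  [[0], [5], [6], [2], [4], [1, 8]],
  [[4], [5], [7], [1], [3], [0, 8]],
  [[0, 1], [2], [6], [3], [7], [8]],
  [[2], [3, 4], [0, 5], [1], [7], [8]],
  [[0, 1], [2, 3], [4], [6], [8]],
  [[2], [0, 3], [6], [1], [5], [8]],
  [[1], [3], [4], [5], [7], [0, 8]],
  [[1, 2], [0, 3], [4], [6], [8]],
  [[0, 1], [2], [4], [5], [3, 7], [8]],
  [[0, 4], [6], [1, 2, 7], [3], [5], [8]],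
  [[0], [2], [4], [6], [8]],
  [[0, 1, 3], [4], [6], [2, 5], [7], [8]]]

/-- selection -/
def sel1 : List ℕ := [0, 0, 1, 2, 0, 0, 3, 4, 5, 6, 7, 2, 8, 9, 3, 10, 11, 12, 13, 14, 15, 16, 17, 18, 19, 12, 20, 20, 15, 21, 20, 20]

/-- orbit indices -/
def idxN2 : ℕ := 1281585703119150816379333607525042953596817185204984278018576840501259012416719566114244443373824

/-- parities -/
def parN2 : ℕ := 805699213636142164080648

/-- exponents -/
def kN2 : ℕ := 417712822951342251323809034566100319256595407444005751231541642065760956049018386203916172800000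

/-- representatives -/
def repU2 : List ℕ := [0, 0, 0, 0, 0, 0, 0, 4, 4, 4]

/-- representatives -/
def repV2 : List ℕ := [1, 2, 4, 5, 6, 7, 8, 5, 6, 8]

/-- the models -/
def models2 : List (List (List ℕ)) := [
  [[1], [3], [5], [6], [7], [8]],
  [[3], [1, 6], [7], [4], [5], [8]],
  [[1], [3], [5], [7], [8]],
  [[1], [3], [5], [0, 2], [7], [8]],
  [[0, 1], [3], [7], [2], [5], [8]],
  [[1], [0, 3], [7], [4], [2, 6], [8]],
  [[0, 1], [2, 3], [5], [7], [8]],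
  [[1], [0, 3], [7], [2], [4], [8]],
  [[3], [1, 4], [5], [6], [7], [8]],
  [[1], [3], [5], [6], [4, 7], [8]],
  [[1, 2], [0, 3], [5], [7], [8]],
  [[3], [0, 1, 4], [5], [6], [7], [8]],
  [[1], [0, 3], [7], [2], [5], [8]],
  [[0, 1, 2], [3], [5], [6], [7], [8]],
  [[2, 3], [0, 1, 4], [5], [6], [7], [8]],
  [[0, 1], [3], [5], [6], [2, 7], [8]],
  [[0, 1], [3], [5], [2], [7], [8]],
  [[3], [0, 1, 6], [7], [4], [5], [8]],
  [[1], [0, 3], [5], [2], [7], [8]],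
  [[0, 1, 2], [3], [7], [4], [5], [8]],
  [[1], [5], [7], [2], [3], [8]],
  [[1], [5], [7], [0], [3], [8]],
  [[1], [5], [7], [2], [0, 3], [8]],
  [[3], [5], [7], [0, 1], [2], [8]],
  [[1], [0, 3], [5], [2, 4], [6], [8]],
  [[1], [0, 3], [5], [2], [6], [8]],
  [[2, 3], [0, 1, 6], [7], [4], [5], [8]],
  [[0, 1], [3], [7], [4], [2, 5], [8]],
  [[1, 2], [0, 3], [5], [6], [7], [8]],
  [[0, 1], [2, 3], [5], [6], [7], [8]],
  [[0, 2], [5], [7], [1], [3], [8]],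
  [[2], [5], [7], [0, 1], [3], [8]],
  [[2], [0, 3], [5], [6], [1, 7], [8]],
  [[0, 1], [2], [5], [3], [6], [8]],
  [[3], [6], [7], [1, 4], [5], [0, 2, 8]],
  [[2], [0, 1, 4], [5], [3], [6], [8]],
  [[2], [0, 3], [5], [1], [7], [8]],
  [[0, 1], [2], [5], [3], [7], [8]],
  [[2], [0, 3, 1], [5], [6], [7], [8]],
  [[2], [0, 3, 4], [5], [6], [7], [8]],
  [[2], [0, 3], [7], [4], [1, 5], [8]],
  [[0, 1], [2], [7], [3], [4], [8]],
  [[3], [1, 4], [5], [6], [7], [0, 2, 8]],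
  [[2], [0, 1, 6], [7], [3], [4], [8]],
  [[0], [2], [5], [6], [4, 7], [8]],
  [[2], [0, 4], [5], [6], [7], [8]],
  [[2], [0, 3], [7], [1], [5], [8]],
  [[0, 1], [2], [7], [3], [5], [8]],
  [[0], [5], [7], [2], [3], [8]],
  [[0], [5], [7], [1], [2], [8]],
  [[0], [2], [5], [7], [8]],
  [[2], [0, 3, 1], [7], [4], [5], [8]],
  [[2], [0, 3, 6], [7], [4], [5], [8]],
  [[2], [0, 6], [7], [4], [5], [8]],
  [[0], [2], [5], [6], [7], [8]],
  [[1], [3], [5], [4], [7], [8]],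
  [[3], [1, 4], [7], [5], [6], [8]],
  [[1], [5], [0, 3, 6], [4], [7], [8]],
  [[0, 2, 1], [3], [7], [5], [6], [8]],
  [[3], [5], [1, 6], [4], [7], [8]],
  [[1], [3], [7], [4, 5], [6], [8]],
  [[3], [0, 1, 4], [7], [2], [6], [8]],
  [[0, 1], [3], [7], [2], [6], [8]],
  [[0, 3], [1, 2, 4], [7], [5], [6], [8]],
  [[0, 3], [1, 4], [7], [2], [5], [8]],
  [[3], [5], [0, 1, 6], [2], [4], [8]],
  [[0, 1], [3], [5], [2], [4], [8]],
  [[1], [0, 3, 4], [7], [5], [6], [8]],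
  [[0, 2, 1], [3], [5], [4], [7], [8]],
  [[0, 3], [5], [1, 2, 6], [4], [7], [8]],
  [[0, 3], [5], [1, 6], [2], [7], [8]],
  [[1, 2], [0, 3], [5], [4], [7], [8]],
  [[0, 1], [2, 3], [5], [4], [7], [8]],
  [[2], [0, 3], [7], [1], [6], [8]],
  [[0, 1], [5], [2, 6], [3], [7], [8]],
  [[2], [0, 3], [7], [1, 4], [6], [8]],
  [[2, 3], [0, 1, 4], [7], [5], [6], [8]],
  [[2], [0, 3], [5], [1], [4], [8]],
  [[0, 1], [2, 4], [7], [3], [5], [8]],
  [[2], [0, 3], [5], [4], [1, 6], [8]],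
  [[2, 3], [5], [0, 1, 6], [4], [7], [8]],
  [[0], [2], [7], [4, 5], [6], [8]],
  [[2], [0, 1, 3], [5], [4], [7], [8]],
  [[2], [5], [0, 1, 6], [4], [7], [8]],
  [[2], [5], [0, 6], [4], [7], [8]],
  [[2], [0, 1, 3], [7], [5], [6], [8]],
  [[2], [0, 1, 4], [7], [5], [6], [8]],
  [[2], [0, 4], [7], [5], [6], [8]],
  [[0], [2], [5], [4], [7], [8]],
  [[1], [5], [7], [3], [4, 6], [8]],
  [[0, 2, 1], [5], [7], [3], [4, 6], [8]],
  [[0, 1, 2], [5], [7], [3], [4, 6], [8]],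
  [[1], [5], [4, 7], [3], [6], [8]],
  [[2], [3], [4], [0], [6], [1, 8]],
  [[0], [3], [6], [2], [4], [1, 8]],
  [[3], [1, 4], [5], [0, 2], [6], [8]],
  [[0, 1], [3, 6], [7], [2], [4], [8]],
  [[3], [1, 4], [5], [0], [6], [8]],
  [[3], [5], [7], [0, 1], [2, 6], [8]],
  [[0], [6], [7], [2], [4], [5, 8]],
  [[3], [5], [4, 7], [1], [6], [8]],
  [[2], [3], [6], [0], [4], [1, 8]],
  [[0], [3], [4], [2], [6], [1, 8]],
  [[1], [5, 6], [4, 7], [2], [3], [8]],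
  [[1], [5, 6], [4, 7], [0], [3], [8]],
  [[3], [5], [4, 7], [0, 1], [6], [8]],
  [[3], [1, 6], [7], [0, 2], [4], [8]],
  [[0, 1], [3, 4], [5], [2], [6], [8]],
  [[1], [3], [4, 6, 5], [0, 2], [7], [8]],
  [[0, 1], [3], [4, 6, 5], [2], [7], [8]],
  [[3], [1, 6], [7], [0], [4], [8]],
  [[3], [5], [7], [0, 1], [2, 4], [8]],
  [[2], [6], [7], [0], [4], [5, 8]],
  [[3], [5, 6], [7], [0, 1], [4], [8]],
  [[1], [6], [7], [3], [4], [5, 8]],
  [[2], [3], [4], [1], [6], [0, 8]],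
  [[0, 2], [5], [4, 7], [3], [6], [8]],
  [[2], [0, 4], [5], [3], [6], [8]],
  [[2], [5], [4, 7], [0], [6], [8]],
  [[2], [3], [6], [1], [4], [0, 8]],
  [[0, 2], [5], [4, 7], [1], [6], [8]],
  [[2], [0, 6], [7], [3], [4], [8]],
  [[1], [2], [4], [3], [6], [0, 8]],
  [[0], [5, 6], [4, 7], [2], [3], [8]],
  [[0], [5, 6], [4, 7], [1], [2], [8]],
  [[1], [2], [6], [3], [4], [0, 8]],
  [[3], [6], [7], [1], [4], [5, 8]],
  [[2], [0, 3], [4, 6, 5], [1], [7], [8]],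
  [[0, 1], [2], [4, 6, 5], [3], [7], [8]],
  [[0, 3], [2, 6], [7], [1], [4], [8]],
  [[0], [5], [7], [2], [4, 6], [8]],
  [[0], [5], [4, 7], [2], [6], [8]],
  [[0, 3], [2, 4], [5], [1], [6], [8]],
  [[1, 2], [5], [7], [0, 3], [4, 6], [8]],
  [[2], [5], [7], [0, 1, 3], [4, 6], [8]],
  [[1], [4, 5], [7], [3], [6], [8]],
  [[0, 2, 1], [4, 5], [7], [3], [6], [8]],
  [[0, 1, 2], [4, 5], [7], [3], [6], [8]],
  [[3], [4, 5], [7], [1], [6], [8]],
  [[3], [1, 4], [7], [0, 2], [6], [8]],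
  [[1], [4, 5], [6, 7], [2], [3], [8]],
  [[1], [4, 5], [6, 7], [0], [3], [8]],
  [[1], [5], [7], [0, 3], [2, 4], [8]],
  [[3], [1, 4], [7], [2], [6], [8]],
  [[0], [4], [7], [2], [6], [5, 8]],
  [[1], [5], [6, 7], [0, 3], [4], [8]],
  [[3], [5], [1, 6], [0, 2], [4], [8]],
  [[1], [2, 5], [7], [0, 3], [6], [8]],
  [[3], [5], [1, 6], [2], [4], [8]],
  [[2], [4], [7], [0], [6], [5, 8]],
  [[1], [3], [4, 5, 6], [0, 2], [7], [8]],
  [[0, 1], [3], [4, 5, 6], [2], [7], [8]],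
  [[1], [4, 5], [7], [0, 3], [6], [8]],
  [[1], [4], [7], [3], [6], [5, 8]],
  [[2], [0, 4], [7], [1], [6], [8]],
  [[2], [4, 5], [7], [0, 1], [6], [8]],
  [[3], [4], [7], [1], [6], [5, 8]],
  [[2], [3, 5], [7], [0, 1], [6], [8]],
  [[2], [5], [0, 6], [1], [4], [8]],
  [[2], [5], [6, 7], [0, 1], [4], [8]],
  [[0], [4, 5], [6, 7], [2], [3], [8]],
  [[0], [4, 5], [6, 7], [1], [2], [8]],
  [[2], [5], [0, 3, 6], [1], [4], [8]],
  [[0], [4, 5], [7], [2], [6], [8]],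
  [[2], [0, 3, 4], [7], [1], [6], [8]],
  [[2], [4, 5], [7], [0], [6], [8]],
  [[2], [0, 3], [4, 5, 6], [1], [7], [8]],
  [[0, 1], [2], [4, 5, 6], [3], [7], [8]],
  [[0, 1], [5], [2, 6], [3], [4], [8]],
  [[2], [5], [7], [0, 1], [3, 4], [8]],
  [[0, 1], [2, 4], [7], [3], [6], [8]],
  [[1, 2], [4, 5], [7], [0, 3], [6], [8]],
  [[2], [4, 5], [7], [0, 1, 3], [6], [8]],
  [[1], [6], [4, 7], [3], [5], [8]],
  [[0, 2, 1], [6], [4, 7], [3], [5], [8]],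
  [[0, 1, 2], [6], [4, 7], [3], [5], [8]],
  [[3], [6], [4, 7], [1], [5], [8]],
  [[3], [6], [1, 7], [0, 2], [5], [8]],
  [[3], [6], [0, 1, 7], [2], [5], [8]],
  [[2], [3], [5], [0], [7], [1, 8]],
  [[0], [3], [7], [2], [5], [1, 8]],
  [[1], [4], [2, 6], [0, 3], [7], [8]],
  [[3], [6], [1, 7], [2], [5], [8]],
  [[0], [6], [7], [2], [5], [4, 8]],
  [[0, 1], [3], [6], [2], [5], [8]],
  [[3], [4], [1, 5], [0, 2], [7], [8]],
  [[3], [4], [0, 1, 5], [2], [7], [8]],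
  [[1], [4], [6], [2], [3], [8]],
  [[1], [4], [6], [0], [3], [8]],
  [[1], [3], [5, 6], [0, 2], [4, 7], [8]],
  [[0, 1], [3], [5, 6], [2], [4, 7], [8]],
  [[1], [4], [6], [2], [0, 3], [8]],
  [[3], [4], [6], [0, 1], [2], [8]],
  [[2], [3], [7], [0], [5], [1, 8]],
  [[0], [3], [5], [2], [7], [1, 8]],
  [[1], [4], [5, 6], [0, 3], [7], [8]],
  [[1], [2, 4], [6], [0, 3], [5], [8]],
  [[3], [4], [1, 5], [2], [7], [8]],
  [[2], [6], [7], [0], [5], [4, 8]],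
  [[0, 1], [3], [4], [2], [7], [8]],
  [[1], [6], [4, 7], [0, 3], [5], [8]],
  [[1], [6], [7], [3], [5], [4, 8]],
  [[0, 2], [4], [6], [1], [3], [8]],
  [[2], [4], [6], [0, 1], [3], [8]],
  [[3], [6], [7], [1], [5], [4, 8]],
  [[2], [0, 3], [4], [1], [7], [8]],
  [[1], [2], [5], [3], [7], [0, 8]],
  [[2], [4], [0, 5], [1], [7], [8]],
  [[2], [4], [5, 6], [0, 1], [7], [8]],
  [[2], [4], [0, 3, 5], [1], [7], [8]],
  [[0], [6], [4, 7], [2], [5], [8]],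
  [[2], [0, 3], [5, 6], [1], [4, 7], [8]],
  [[0, 1], [2], [5, 6], [3], [4, 7], [8]],
  [[0], [4], [6], [2], [3], [8]],
  [[0], [4], [6], [1], [2], [8]],
  [[2], [4], [3, 6], [0, 1], [7], [8]],
  [[0, 1], [6], [2, 7], [3], [5], [8]],
  [[2], [0, 3], [6], [1], [5], [8]],
  [[1], [2], [7], [3], [5], [0, 8]],
  [[2], [6], [0, 7], [1], [5], [8]],
  [[2], [6], [4, 7], [0, 1], [5], [8]],
  [[2], [3, 4], [6], [0, 1], [5], [8]],
  [[2], [3], [5], [1], [7], [0, 8]],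
  [[2], [3], [7], [1], [5], [0, 8]],
  [[2], [6], [0, 3, 7], [1], [5], [8]],
  [[2], [6], [4, 7], [0], [5], [8]],
  [[0, 1], [4], [2, 5], [3], [7], [8]],
  [[1, 2], [6], [4, 7], [0, 3], [5], [8]],
  [[2], [6], [4, 7], [0, 1, 3], [5], [8]],
  [[1], [4, 5], [6], [3], [7], [8]],
  [[0, 2, 1], [4, 5], [6], [3], [7], [8]],
  [[0, 1, 2], [4, 5], [6], [3], [7], [8]],
  [[3], [4], [1, 7], [0, 2], [5], [8]],
  [[0, 1], [3, 5], [6], [2], [7], [8]],
  [[3], [4, 5], [6], [1], [7], [8]],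
  [[3], [1, 5], [6], [0, 2], [7], [8]],
  [[0, 1], [4], [3, 7], [2], [5], [8]],
  [[1], [3], [6], [0, 2], [4, 5, 7], [8]],
  [[0, 1], [3], [6], [2], [4, 5, 7], [8]],
  [[3], [1, 5], [6], [0], [7], [8]],
  [[3], [2, 4], [6], [0, 1], [7], [8]],
  [[1], [0, 3], [4], [2], [5], [8]],
  [[2], [5], [6], [0], [7], [4, 8]],
  [[3], [4], [1, 7], [0], [5], [8]],
  [[3], [4], [6], [0, 1], [2, 5], [8]],
  [[1], [0, 3], [6], [2], [7], [8]],
  [[0], [5], [6], [2], [7], [4, 8]],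
  [[3], [4], [6, 7], [0, 1], [5], [8]],
  [[3], [4, 5], [6], [0, 1], [7], [8]],
  [[1], [5], [6], [3], [7], [4, 8]],
  [[0, 1], [2], [6], [3], [7], [8]],
  [[0, 2], [4, 5], [6], [3], [7], [8]],
  [[2], [0, 5], [6], [3], [7], [8]],
  [[3], [5], [6], [1], [7], [4, 8]],
  [[2], [0, 3], [6], [1], [4, 5, 7], [8]],
  [[0, 1], [2], [6], [3], [4, 5, 7], [8]],
  [[2], [0, 1, 5], [6], [3], [7], [8]],
  [[2], [4, 5], [6], [0], [7], [8]],
  [[0, 3], [4], [2, 7], [1], [5], [8]],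
  [[0, 1], [2], [4], [3], [5], [8]],
  [[0, 2], [4, 5], [6], [1], [7], [8]],
  [[2], [4], [0, 7], [3], [5], [8]],
  [[2], [4], [0, 1, 7], [3], [5], [8]],
  [[0], [4, 5], [6], [2], [7], [8]],
  [[0, 3], [2, 5], [6], [1], [7], [8]],
  [[1, 2], [4, 5], [6], [0, 3], [7], [8]],
  [[2], [4, 5], [6], [0, 1, 3], [7], [8]],
  [[1], [3], [4], [6], [7], [8]],
  [[1], [3], [4], [6], [8]],
  [[1], [3], [4], [0, 2], [6], [8]],
  [[0, 1], [3], [6], [2], [4], [8]],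
  [[3], [4], [1, 5], [6], [7], [8]],
  [[1, 2], [0, 3], [4], [6], [8]],
  [[1], [0, 3], [6], [2], [4], [8]],
  [[0, 1], [3], [4], [2], [6], [8]],
  [[1], [6], [0, 3, 7], [4], [5], [8]],
  [[0, 1], [2, 3], [4], [6], [8]],
  [[0, 2, 1], [3], [4], [6], [7], [8]],
  [[3], [6], [1, 7], [4], [5], [8]],
  [[1], [4], [0, 3, 5], [6], [7], [8]],
  [[0, 2, 1], [3], [6], [4], [5], [8]],
  [[1], [3], [4, 6], [5], [7], [8]],
  [[0, 3], [6], [1, 2, 7], [4], [5], [8]],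
  [[0, 3], [6], [1, 7], [2], [4], [8]],
  [[1], [0, 3], [4], [2], [6], [8]],
  [[0, 3], [4], [1, 2, 5], [6], [7], [8]],
  [[0, 3], [4], [1, 5], [2], [6], [8]],
  [[1, 2], [0, 3], [4], [6], [7], [8]],
  [[0, 1], [2, 3], [4], [6], [7], [8]],
  [[2], [0, 3], [4], [1], [6], [8]],
  [[0, 1], [2], [4], [3], [6], [8]],
  [[0, 1], [6], [2, 7], [3], [4], [8]],
  [[2], [0, 3], [4], [1, 5], [7], [8]],
  [[2, 3], [4], [0, 1, 5], [6], [7], [8]],
  [[2], [0, 1, 3], [4], [6], [7], [8]],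
  [[2], [4], [0, 1, 5], [6], [7], [8]],
  [[2], [0, 3], [6], [1], [4], [8]],
  [[0, 1], [2], [6], [3], [4], [8]],
  [[0], [2], [4], [6], [8]],
  [[0, 1], [4], [2, 5], [3], [6], [8]],
  [[2], [0, 3], [6], [5], [1, 7], [8]],
  [[2, 3], [6], [0, 1, 7], [4], [5], [8]],
  [[0], [2], [4, 6], [5], [7], [8]],
  [[2], [4], [0, 5], [6], [7], [8]],
  [[2], [0, 1, 3], [6], [4], [5], [8]],
  [[2], [6], [0, 1, 7], [4], [5], [8]],
  [[2], [6], [0, 7], [4], [5], [8]],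
  [[0], [2], [4], [6], [7], [8]],
  [[1], [3], [4], [5], [6], [8]],
  [[3], [4], [1, 7], [5], [6], [8]],
  [[3], [4], [0, 1, 7], [5], [6], [8]],
  [[0, 1, 2], [3], [4], [5], [6], [8]],
  [[1], [0, 3], [4], [5], [2, 7], [8]],
  [[3], [1, 5], [6], [4], [7], [8]],
  [[1], [0, 3], [6], [2, 5], [7], [8]],
  [[1], [3], [6], [4, 5], [7], [8]],
  [[2, 3], [4], [0, 1, 7], [5], [6], [8]],
  [[0, 1], [3], [4], [5], [2, 6], [8]],
  [[3], [0, 1, 5], [6], [4], [7], [8]],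
  [[0, 1, 2], [3], [6], [4], [7], [8]],
  [[2, 3], [0, 1, 5], [6], [4], [7], [8]],
  [[0, 1], [3], [6], [2, 4], [7], [8]],
  [[1, 2], [0, 3], [4], [5], [6], [8]],
  [[0, 1], [2, 3], [4], [5], [6], [8]],
  [[2], [0, 3], [6], [1, 4], [7], [8]],
  [[5], [6], [7], [3], [1, 4], [0, 2, 8]],
  [[2], [0, 3, 1], [6], [4], [7], [8]],
  [[2], [0, 3, 5], [6], [4], [7], [8]],
  [[2], [0, 3], [4], [5], [1, 6], [8]],
  [[3], [1, 5], [6], [4], [7], [0, 2, 8]],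
  [[2], [0, 3, 1], [4], [5], [6], [8]],
  [[2], [4], [0, 3, 7], [5], [6], [8]],
  [[0], [2], [6], [4, 5], [7], [8]],
  [[2], [4], [0, 7], [5], [6], [8]],
  [[2], [0, 5], [6], [4], [7], [8]],
  [[0], [2], [4], [5], [6], [8]]]

/-- selection -/
def sel2 : List ℕ := [0, 0, 0, 0, 1, 1, 1, 1, 2, 2, 3, 4, 5, 6, 7, 4, 8, 8, 8, 8, 9, 9, 9, 9, 10, 11, 12, 13, 5, 14, 7, 15, 2, 2, 3, 16, 10, 17, 18, 19, 20, 21, 3, 16, 22, 23, 18, 4, 24, 6, 25, 16, 24, 26, 25, 27, 22, 23, 12, 16, 22, 23, 28, 29, 28, 29, 30, 31, 32, 33, 34, 35, 36, 37, 30, 31, 38, 37, 39, 6, 40, 41, 42, 43, 44, 44, 44, 44, 36, 41, 10, 43, 45, 45, 45, 45, 46, 47, 30, 31, 46, 33, 10, 35, 36, 37, 48, 49, 46, 37, 50, 50, 51, 47, 52, 6, 53, 53, 53, 53, 36, 47, 50, 50, 54, 54, 54, 54, 55, 55, 55, 55, 56, 56, 56, 56, 2, 2, 3, 4, 57, 6, 58, 4, 59, 59, 59, 59, 60, 60, 60, 60, 10, 61, 12, 62, 63, 61, 64, 62, 2, 2, 3, 16, 10, 65, 18, 66, 20,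 21, 3, 16, 22, 23, 18, 4, 67, 6, 68, 16, 69, 65, 70, 66, 22, 23, 12, 16, 22, 23, 71, 72, 71, 72, 30, 31, 73, 74, 75, 76, 36, 37, 30, 31, 73, 37, 75, 6, 77, 78, 79, 80, 81, 81, 81, 81, 36, 82, 10, 83, 84, 84, 84, 84, 46, 47, 30, 31, 46, 85, 10, 86, 36, 37, 48, 49, 46, 37, 50, 50, 77, 47, 79, 6, 87, 87, 87, 87, 36, 47, 50, 50, 88, 88, 88, 88, 89, 89, 90, 91, 92, 92, 93, 94, 89, 89, 95, 96, 97, 98, 7, 99, 100, 100, 101, 102, 103, 104, 93, 102, 100, 100, 95, 102, 97, 105, 7, 102, 89, 89, 106, 107, 92, 92, 106, 94, 20, 21, 108, 109, 22, 23, 99, 99, 110, 111, 25, 112, 110, 113, 25, 94, 22, 23, 112, 112, 22, 23, 99, 99, 114, 114, 30, 31, 115, 33, 116, 117, 114, 114, 30, 31, 115, 35, 118, 118, 119, 41, 120, 121, 115, 122, 123, 124, 114, 41, 120, 121, 115, 125, 118, 118, 126, 126, 30, 31, 126, 33, 116, 117, 127, 128, 48, 49, 129, 35, 130, 130, 119, 43, 131, 131, 119, 122, 131, 131, 132, 43, 130,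 130, 133, 134, 130, 130, 135, 135, 136, 137, 138, 138, 93, 94, 138, 138, 139, 61, 138, 138, 93, 61, 135, 135, 101, 102, 140, 141, 93, 102, 142, 143, 144, 62, 145, 143, 93, 62, 135, 135, 146, 65, 147, 148, 149, 66, 20, 21, 150, 151, 22, 23, 149, 149, 135, 135, 101, 65, 152, 148, 101, 66, 22, 23, 144, 144, 22, 23, 144, 144, 153, 153, 30, 31, 73, 122, 154, 155, 156, 156, 30, 31, 73, 156, 154, 157, 77, 125, 158, 159, 115, 122, 160, 161, 162, 125, 163, 163, 115, 125, 163, 163, 153, 153, 30, 31, 164, 122, 165, 165, 166, 167, 48, 49, 164, 168, 165, 165, 77, 153, 158, 169, 119, 122, 165, 165, 162, 170, 163, 163, 171, 172, 163, 163, 173, 173, 174, 175, 176, 176, 177, 178, 173, 173, 179, 180, 181, 182, 183, 184, 173, 173, 185, 186, 187, 188, 189, 190, 173, 173, 179, 186, 191, 192, 183, 183, 176, 176, 193, 194, 176, 176, 193, 178, 103, 104, 179, 194, 195, 182, 193, 184, 196, 197, 198, 199, 191,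 192, 198, 198, 200, 197, 179, 199, 191, 192, 183, 183, 201, 201, 202, 203, 204, 204, 202, 203, 205, 206, 207, 208, 209, 206, 210, 210, 201, 201, 202, 203, 211, 212, 213, 214, 205, 201, 207, 215, 209, 216, 210, 210, 217, 218, 219, 220, 217, 204, 219, 221, 222, 206, 123, 124, 223, 206, 210, 210, 224, 218, 225, 225, 224, 226, 225, 225, 222, 218, 225, 225, 227, 228, 210, 210, 229, 229, 230, 231, 229, 229, 232, 233, 229, 229, 179, 180, 229, 229, 232, 180, 234, 234, 235, 236, 187, 188, 237, 238, 239, 240, 241, 242, 191, 192, 242, 242, 234, 234, 193, 194, 243, 244, 245, 246, 140, 141, 179, 194, 243, 247, 245, 180, 234, 234, 235, 194, 191, 192, 246, 246, 239, 248, 241, 194, 191, 192, 246, 246, 249, 249, 202, 203, 249, 249, 202, 203, 222, 250, 251, 252, 249, 250, 251, 252, 253, 253, 202, 203, 254, 255, 213, 214, 222, 256, 257, 257, 258, 256, 257, 257, 223, 259, 260, 261, 223, 262, 263, 263, 222,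 206, 160, 161, 223, 206, 263, 263, 253, 259, 260, 261, 264, 262, 263, 263, 222, 218, 257, 257, 265, 266, 263, 263, 267, 267, 267, 267, 268, 268, 269, 270, 271, 271, 271, 271, 272, 178, 273, 184, 268, 268, 269, 274, 187, 188, 269, 274, 275, 276, 277, 274, 191, 192, 273, 274, 278, 278, 278, 278, 279, 276, 280, 270, 281, 281, 281, 281, 282, 178, 283, 184, 272, 186, 284, 199, 191, 192, 284, 270, 285, 186, 286, 199, 191, 192, 287, 288, 287, 288, 202, 203, 289, 290, 202, 203, 205, 291, 292, 293, 289, 294, 272, 295, 296, 297, 202, 203, 289, 290, 213, 214, 205, 297, 292, 276, 289, 297, 298, 298, 217, 299, 300, 301, 217, 290, 300, 276, 302, 302, 302, 302, 303, 303, 303, 303, 296, 304, 272, 305, 296, 290, 298, 298, 306, 306, 306, 306, 307, 307, 307, 307, 308, 308, 308, 308, 268, 268, 269, 270, 309, 309, 309, 309, 272, 310, 273, 311, 268, 268, 269, 274, 187, 188, 269, 274, 312, 276, 241, 274, 191,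 192, 273, 274, 313, 313, 313, 313, 314, 276, 245, 270, 315, 315, 315, 315, 314, 316, 245, 317, 272, 318, 284, 319, 191, 192, 284, 270, 312, 320, 241, 321, 191, 192, 322, 323, 322, 323, 202, 203, 289, 290, 202, 203, 324, 250, 325, 256, 289, 250, 272, 256, 296, 297, 202, 203, 289, 290, 213, 214, 326, 297, 327, 276, 289, 297, 298, 298, 328, 259, 329, 262, 330, 290, 331, 276, 332, 332, 332, 332, 333, 333, 333, 333, 296, 259, 272, 262, 296, 290, 298, 298, 334, 334, 334, 334, 335, 335, 335, 335]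

end H721R3.K9
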