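import Pool.Agent.Helper805.CHS.Drawn
import Pool.Agent.H721R3.K9.Cert

/-! Checker for models of `K₅` and `K₃,₃`. -/

set_option autoImplicit false

namespace H721R3.K9
open Pool.Agent.Helper805.CHS

section Checker

/-- every vertex of the list is adjacent to an earlier one -/
def connAux (a : ℕ → ℕ → Bool) : List ℕ → List ℕ → Bool
  | _, [] => true
  | done, x :: xs => (done.any fun y => a y x) && connAux a (x :: done) xs

/-- connected list -/
def conn (a : ℕ → ℕ → Bool) : List ℕ → Bool
  | [] => false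
  | x :: xs => connAux a [x] xs

/-- the two lists are disjoint -/
def disj (l l' : List ℕ) : Bool := l.all fun x => l'.all fun y => !(x == y)

/-- an edge between the two lists -/
def tch (a : ℕ → ℕ → Bool) (l l' : List ℕ) : Bool := l.any fun x => l'.any fun y => a x y

/-- the sets are connected and disjoint -/
def base (a : ℕ → ℕ → Bool) (m : List (List ℕ)) (n : ℕ) : Bool :=
  ((List.range n).all fun i => conn a (m.getD i [])) &&
  ((List.range n).all fun i => (List.range n).all fun j => i == j || disj (m.getD i []) (m.getD j []))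

/-- check of a model of `K₅` -/
def chk5 (a : ℕ → ℕ → Bool) (m : List (List ℕ)) : Bool :=
  base a m 5 && ((List.range 5).all fun i => (List.range 5).all fun j =>
    i == j || tch a (m.getD i []) (m.getD j []))

/-- check of a model of `K₃,₃` -/
def chk33 (a : ℕ → ℕ → Bool) (m : List (List ℕ)) : Bool :=
  base a m 6 && ((List.range 3).all fun i => (List.range 3).all fun j =>
    tch a (m.getD i []) (m.getD (j + 3) []))

/-- the check -/
def chk (a : ℕ → ℕ → Bool) (m : List (List ℕ)) : Bool :=
  (m.all fun l => l.all fun x => decide (x < 9)) && (chk5 a m || chk33 a m)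

variable (a : ℕ → ℕ → Bool) (G : SimpleGraph (Fin 9))

/-- the vertex set of a list -/
def vs (l : List ℕ) : Set (Fin 9) := {x | x.val ∈ l}

/-- reachability inside a set -/
def Reach (S : Set (Fin 9)) (u v : Fin 9) : Prop :=
  ∃ (hu : u ∈ S) (hv : v ∈ S), (G.induce S).Reachable ⟨u, hu⟩ ⟨v, hv⟩

theorem Reach.trans {S : Set (Fin 9)} {u v w : Fin 9} (h : Reach G S u v) (h' : Reach G S v w) :
    Reach G S u w := by
  obtain ⟨hu, hv, h⟩ := h
  obtain ⟨hv', hw, h'⟩ := h'
  exact ⟨hu, hw, h.trans h'⟩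

theorem reach_step (hG : ∀ u v : Fin 9, u ≠ v → a u.val v.val = true → G.Adj u v)
    {S : Set (Fin 9)} {u v : Fin 9} (hu : u ∈ S) (hv : v ∈ S) (h : a u.val v.val = true) :
    Reach G S u v := by
  refine ⟨hu, hv, ?_⟩
  by_cases huv : u = v
  · subst huv; exact SimpleGraph.Reachable.refl _
  · exact SimpleGraph.Adj.reachable (by simpa using hG u v huv h)

theorem connAux_reach (hG : ∀ u v : Fin 9, u ≠ v → a u.val v.val = true → G.Adj u v)
    (S : Set (Fin 9)) (r : Fin 9) :
    ∀ (xs done : List ℕ), (∀ x ∈ xs, ∃ hx : x < 9, (⟨x, hx⟩ : Fin 9) ∈ S) →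
      (∀ x ∈ done, ∃ hx : x < 9, Reach G S r ⟨x, hx⟩) →
      connAux a done xs = true → ∀ x ∈ xs, ∃ hx : x < 9, Reach G S r ⟨x, hx⟩ := by
  intro xs
  induction xs with
  | nil => intro done _ _ _ x hx; simp at hx
  | cons y ys ih =>
    intro done hS hd hc x hx
    simp only [connAux, Bool.and_eq_true, List.any_eq_true] at hc
    obtain ⟨⟨z, hz, hzy⟩, hc⟩ := hc
    obtain ⟨hz9, hrz⟩ := hd z hz
    obtain ⟨hy9, hyS⟩ := hS y (by simp)
    have hry : Reach G S r ⟨y, hy9⟩ :=
      Reach.trans G hrz (reach_step a G hG hrz.2.1 hyS hzy)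
    rcases List.mem_cons.mp hx with rfl | hx
    · exact ⟨hy9, hry⟩
    · refine ih (y :: done) (fun x hx => hS x (by simp [hx])) ?_ hc x hx
      intro w hw
      rcases List.mem_cons.mp hw with rfl | hw
      · exact ⟨hy9, hry⟩
      · exact hd w hw

theorem conn_sound (hG : ∀ u v : Fin 9, u ≠ v → a u.val v.val = true → G.Adj u v)
    (l : List ℕ) (hl : ∀ x ∈ l, x < 9) (h : conn a l = true) : (G.induce (vs l)).Connected := by
  cases l with
  | nil => simp [conn] at h
  | cons y ys =>
    simp only [conn] at h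
    have hy9 : y < 9 := hl y (by simp)
    have hyS : (⟨y, hy9⟩ : Fin 9) ∈ vs (y :: ys) := by simp [vs]
    have hr0 : Reach G (vs (y :: ys)) ⟨y, hy9⟩ ⟨y, hy9⟩ :=
      ⟨hyS, hyS, SimpleGraph.Reachable.refl _⟩
    have key := connAux_reach a G hG (vs (y :: ys)) ⟨y, hy9⟩ ys [y]
      (fun x hx => ⟨hl x (by simp [hx]), by simp [vs, hx]⟩)
      (fun x hx => by
        rw [List.mem_singleton] at hx; subst hx; exact ⟨hy9, hr0⟩) h
    have key2 : ∀ x : Fin 9, x ∈ vs (y :: ys) → Reach G (vs (y :: ys)) ⟨y, hy9⟩ x := by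
      intro x hx
      have hx' : x.val ∈ y :: ys := hx
      rcases List.mem_cons.mp hx' with h1 | h1
      · have : x = ⟨y, hy9⟩ := Fin.ext h1
        rw [this]; exact hr0
      · obtain ⟨_, h2⟩ := key _ h1
        exact h2
    rw [SimpleGraph.connected_iff_exists_forall_reachable]
    refine ⟨⟨⟨y, hy9⟩, hyS⟩, fun w => ?_⟩
    obtain ⟨_, _, h3⟩ := key2 w.1 w.2
    exact h3

theorem disj_sound (l l' : List ℕ) (h : disj l l' = true) : Disjoint (vs l) (vs l') := by
  rw [Set.disjoint_left]
  intro x hx hx'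
  simp only [disj, List.all_eq_true] at h
  have := h x.val hx x.val hx'
  simp at this

theorem tch_sound (hG : ∀ u v : Fin 9, u ≠ v → a u.val v.val = true → G.Adj u v)
    (l l' : List ℕ) (hl : ∀ x ∈ l, x < 9) (hl' : ∀ x ∈ l', x < 9)
    (hd : Disjoint (vs l) (vs l')) (h : tch a l l' = true) :
    ∃ x ∈ vs l, ∃ y ∈ vs l', G.Adj x y := by
  simp only [tch, List.any_eq_true] at h
  obtain ⟨x, hx, y, hy, hxy⟩ := h
  have hx9 := hl x hx
  have hy9 := hl' y hy
  have hxS : (⟨x, hx9⟩ : Fin 9) ∈ vs l := hx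
  have hyS : (⟨y, hy9⟩ : Fin 9) ∈ vs l' := hy
  refine ⟨⟨x, hx9⟩, hxS, ⟨y, hy9⟩, hyS, hG _ _ ?_ hxy⟩
  intro he
  exact Set.disjoint_left.mp hd hxS (he ▸ hyS)

theorem base_sound (hG : ∀ u v : Fin 9, u ≠ v → a u.val v.val = true → G.Adj u v)
    (m : List (List ℕ)) (n : ℕ) (hm : ∀ i, ∀ x ∈ m.getD i [], x < 9) (h : base a m n = true) :
    (∀ i < n, (G.induce (vs (m.getD i []))).Connected) ∧
    (∀ i < n, ∀ j < n, i ≠ j → Disjoint (vs (m.getD i [])) (vs (m.getD j []))) := by
  simp only [base, Bool.and_eq_true, List.all_eq_true, List.mem_range, Bool.or_eq_true,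
    beq_iff_eq] at h
  refine ⟨fun i hi => conn_sound a G hG _ (hm i) (h.1 i hi), fun i hi j hj hij => ?_⟩
  rcases h.2 i hi j hj with h1 | h1
  · exact absurd h1 hij
  · exact disj_sound _ _ h1

theorem chk_sound (hG : ∀ u v : Fin 9, u ≠ v → a u.val v.val = true → G.Adj u v)
    (m : List (List ℕ)) (h : chk a m = true) : K5Model G ∨ K33Model G := by
  simp only [chk, Bool.and_eq_true, List.all_eq_true, decide_eq_true_eq, Bool.or_eq_true] at h
  obtain ⟨h9, h⟩ := h
  have hm : ∀ i, ∀ x ∈ m.getD i [], x < 9 := by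
    intro i x hx
    by_cases hi : i < m.length
    · rw [List.getD_eq_getElem _ _ hi] at hx
      exact h9 _ (List.getElem_mem hi) x hx
    · rw [List.getD_eq_default _ _ (not_lt.mp hi)] at hx
      simp at hx
  rcases h with h | h
  · left
    simp only [chk5, Bool.and_eq_true, List.all_eq_true, List.mem_range, Bool.or_eq_true,
      beq_iff_eq] at h
    obtain ⟨hb, ht⟩ := h
    obtain ⟨hc, hd⟩ := base_sound a G hG m 5 hm hb
    refine ⟨fun i => vs (m.getD i.val []), fun i => hc i i.2, fun i j hij => ?_, fun i j hij => ?_⟩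
    · exact hd i i.2 j j.2 (fun h => hij (Fin.ext h))
    · have hne : i.val ≠ j.val := fun h => hij (Fin.ext h)
      rcases ht i i.2 j j.2 with h1 | h1
      · exact absurd h1 hne
      · exact tch_sound a G hG _ _ (hm i) (hm j) (hd i i.2 j j.2 hne) h1
  · right
    simp only [chk33, Bool.and_eq_true, List.all_eq_true, List.mem_range] at h
    obtain ⟨hb, ht⟩ := h
    obtain ⟨hc, hd⟩ := base_sound a G hG m 6 hm hb
    refine ⟨fun i => vs (m.getD i.val []), fun i => vs (m.getD (i.val + 3) []),
      fun i => hc i (by omega), fun i => hc _ (by omega), fun i j hij => ?_, fun i j hij => ?_,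
      fun i j => ?_, fun i j => ?_⟩
    · exact hd i (by omega) j (by omega) (fun h => hij (Fin.ext h))
    · exact hd _ (by omega) _ (by omega) (fun h => hij (Fin.ext (by omega)))
    · exact hd i (by omega) _ (by omega) (by omega)
    · exact tch_sound a G hG _ _ (hm i) (hm _) (hd i (by omega) _ (by omega) (by omega))
        (ht i i.2 j j.2)

end Checker

/-- adjacency of the graph number `k` of the first type -/
def adj1 (k u v : ℕ) : Bool :=
  (k.testBit ((idxN1 >>> (4 * (9 * u + v))) % 16)) ^^ (parN1.testBit (9 * u + v))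

/-- adjacency of the graph number `k` of the second type -/
def adj2 (k u v : ℕ) : Bool :=
  (k.testBit ((idxN2 >>> (4 * (9 * u + v))) % 16)) ^^ (parN2.testBit (9 * u + v))

theorem all1 : ((List.range 32).all fun k => chk (adj1 k) (models1.getD (sel1.getD k 0) [])) = true := by
  decide +kernel

theorem all2 : ((List.range 1024).all fun k => chk (adj2 k) (models2.getD (sel2.getD k 0) [])) = true := by
  decide +kernel

theorem model1 (G : SimpleGraph (Fin 9)) (k : ℕ) (hk : k < 32)
    (hG : ∀ u v : Fin 9, u ≠ v → adj1 k u.val v.val = true → G.Adj u v) :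
    K5Model G ∨ K33Model G := by
  have h := all1
  rw [List.all_eq_true] at h
  exact chk_sound _ G hG _ (h k (List.mem_range.mpr hk))

theorem model2 (G : SimpleGraph (Fin 9)) (k : ℕ) (hk : k < 1024)
    (hG : ∀ u v : Fin 9, u ≠ v → adj2 k u.val v.val = true → G.Adj u v) :
    K5Model G ∨ K33Model G := by
  have h := all2
  rw [List.all_eq_true] at h
  exact chk_sound _ G hG _ (h k (List.mem_range.mpr hk))

end H721R3.K9
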