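import Mathlib

/-! Antimorphisms of self-complementary graphs on nine vertices. -/

set_option autoImplicit false

namespace H721R3.K9

open Equiv

theorem iter (B : Fin 9 → Fin 9 → Bool) (σ : Perm (Fin 9))
    (hσ : ∀ u v, u ≠ v → B (σ u) (σ v) = !B u v) (k : ℕ) :
    ∀ u v, u ≠ v → B ((σ ^ k) u) ((σ ^ k) v) = (B u v ^^ decide (k % 2 = 1)) := by
  induction k with
  | zero => intro u v _; simp
  | succ k ih =>
    intro u v huv
    rw [pow_succ', Perm.mul_apply, Perm.mul_apply, hσ _ _ (fun h => huv ((σ ^ k).injective h)),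
      ih u v huv]
    rcases Nat.mod_two_eq_zero_or_one k with h | h
    · have h' : (k + 1) % 2 = 1 := by omega
      simp [h, h']
    · have h' : (k + 1) % 2 = 0 := by omega
      simp [h, h']

theorem four_dvd (B : Fin 9 → Fin 9 → Bool) (hs : ∀ u v, u ≠ v → B u v = B v u)
    (σ : Perm (Fin 9)) (hσ : ∀ u v, u ≠ v → B (σ u) (σ v) = !B u v) (n : ℕ)
    (hn : n ∈ σ.cycleType) : 4 ∣ n := by
  classical
  rw [Perm.cycleType_def, Multiset.mem_map] at hn
  obtain ⟨c, hc, rfl⟩ := hn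
  have hc' : c ∈ σ.cycleFactorsFinset := hc
  obtain ⟨hcyc, hcs⟩ := Perm.mem_cycleFactorsFinset_iff.mp hc'
  obtain ⟨x, hx⟩ := hcyc.nonempty_support
  have hcx : c = σ.cycleOf x := Perm.cycle_is_cycleOf hx hc'
  have hord : orderOf c = c.support.card := hcyc.orderOf
  set n := c.support.card with hn
  have hpow : ∀ k : ℕ, (c ^ k) x = (σ ^ k) x := by
    intro k; rw [hcx]; exact Perm.cycleOf_pow_apply_self σ x k
  have hn2 : 2 ≤ n := hcyc.two_le_card_support
  have hfix : (σ ^ n) x = x := by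
    rw [← hpow, ← hord, pow_orderOf_eq_one]; rfl
  have hnf : ∀ k : ℕ, 0 < k → k < n → (σ ^ k) x ≠ x := by
    intro k hk hkn h
    have h1 : c ^ k = 1 := hcyc.pow_eq_one_iff.mpr
      ⟨x, Perm.mem_support.mp hx, by rw [hpow, h]⟩
    have := orderOf_dvd_of_pow_eq_one h1
    rw [hord] at this
    exact absurd (Nat.le_of_dvd hk this) (by omega)
  have hne : x ≠ σ x := by
    have := hnf 1 (by norm_num) (by omega)
    rw [pow_one] at this
    exact fun h => this h.symm
  have heven : n % 2 = 0 := by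
    have h1 := iter B σ hσ n x (σ x) hne
    have h2 : (σ ^ n) (σ x) = σ ((σ ^ n) x) := by
      rw [← Perm.mul_apply, ← Perm.mul_apply, ← pow_succ, ← pow_succ']
    rw [h2, hfix] at h1
    by_contra hodd
    have h3 : n % 2 = 1 := by omega
    rw [h3] at h1
    simp at h1
  obtain ⟨m, hm⟩ : ∃ m, n = 2 * m := ⟨n / 2, by omega⟩
  have hmne : x ≠ (σ ^ m) x := (hnf m (by omega) (by omega)).symm
  have h1 := iter B σ hσ m x ((σ ^ m) x) hmne
  have h2 : (σ ^ m) ((σ ^ m) x) = x := by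
    rw [← Perm.mul_apply, ← pow_add]
    have : m + m = n := by omega
    rw [this, hfix]
  rw [h2, hs _ _ hmne.symm] at h1
  have h3 : m % 2 = 0 := by
    by_contra hodd
    have h3 : m % 2 = 1 := by omega
    rw [h3] at h1
    simp at h1
  change 4 ∣ n
  omega

theorem support_card (B : Fin 9 → Fin 9 → Bool)
    (σ : Perm (Fin 9)) (hσ : ∀ u v, u ≠ v → B (σ u) (σ v) = !B u v) :
    8 ≤ σ.support.card := by
  have h1 : (σ.supportᶜ).card ≤ 1 := by
    rw [Finset.card_le_one]
    intro u hu v hv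
    rw [Finset.mem_compl, Perm.notMem_support] at hu hv
    by_contra huv
    have := hσ u v huv
    rw [hu, hv] at this
    simp at this
  have h2 := Finset.card_compl σ.support
  simp only [Fintype.card_fin] at h2
  have h3 : σ.support.card ≤ 9 := by
    simpa using Finset.card_le_univ σ.support
  omega

theorem cycleType_cases (B : Fin 9 → Fin 9 → Bool) (hs : ∀ u v, u ≠ v → B u v = B v u)
    (σ : Perm (Fin 9)) (hσ : ∀ u v, u ≠ v → B (σ u) (σ v) = !B u v) :
    σ.cycleType = {8} ∨ σ.cycleType = {4, 4} := by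
  have h4 := four_dvd B hs σ hσ
  have hsum : σ.cycleType.sum = σ.support.card := Perm.sum_cycleType σ
  have h8 := support_card B σ hσ
  have h9 : σ.support.card ≤ 9 := by
    simpa using Finset.card_le_univ σ.support
  have h2 : ∀ n ∈ σ.cycleType, 2 ≤ n := fun n hn => Perm.two_le_of_mem_cycleType hn
  have hd : 4 ∣ σ.cycleType.sum := Multiset.dvd_sum h4
  have hs8 : σ.cycleType.sum = 8 := by omega
  generalize σ.cycleType = s at *
  clear hsum h8 h9 hd
  have hzero : ∀ t : Multiset ℕ, (∀ n ∈ t, 2 ≤ n) → t.sum = 0 → t = 0 := by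
    intro t ht hst
    by_contra hne
    obtain ⟨a, ha⟩ := Multiset.exists_mem_of_ne_zero hne
    have := Multiset.le_sum_of_mem ha
    have := ht a ha
    omega
  have hne : s ≠ 0 := by rintro rfl; simp at hs8
  obtain ⟨a, ha⟩ := Multiset.exists_mem_of_ne_zero hne
  obtain ⟨t, rfl⟩ := Multiset.exists_cons_of_mem ha
  rw [Multiset.sum_cons] at hs8
  obtain ⟨b, hb⟩ := h4 a ha
  have ha2 := h2 a ha
  have hcase : a = 4 ∨ a = 8 := by omega
  rcases hcase with h | h
  · right
    have hts : t.sum = 4 := by omega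
    have htne : t ≠ 0 := by rintro rfl; simp at hts
    obtain ⟨a', ha'⟩ := Multiset.exists_mem_of_ne_zero htne
    obtain ⟨t', rfl⟩ := Multiset.exists_cons_of_mem ha'
    rw [Multiset.sum_cons] at hts
    obtain ⟨b', hb'⟩ := h4 a' (by simp)
    have ha2' := h2 a' (by simp)
    have : t' = 0 := hzero t' (fun n hn => h2 n (by simp [hn])) (by omega)
    subst this
    have : a' = 4 := by omega
    subst this
    subst h
    rfl
  · left
    have : t = 0 := hzero t (fun n hn => h2 n (by simp [hn])) (by omega)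
    subst this
    subst h
    rfl

/-- the eight-cycle -/
def τ1 : Perm (Fin 9) := ⟨![1, 2, 3, 4, 5, 6, 7, 0, 8], ![7, 0, 1, 2, 3, 4, 5, 6, 8],
  by decide, by decide⟩

/-- the first four-cycle -/
def τa : Perm (Fin 9) := ⟨![1, 2, 3, 0, 4, 5, 6, 7, 8], ![3, 0, 1, 2, 4, 5, 6, 7, 8],
  by decide, by decide⟩

/-- the second four-cycle -/
def τb : Perm (Fin 9) := ⟨![0, 1, 2, 3, 5, 6, 7, 4, 8], ![0, 1, 2, 3, 7, 4, 5, 6, 8],
  by decide, by decide⟩

theorem τ1_cycle : τ1.IsCycle := by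
  refine ⟨0, by decide, fun y hy => ?_⟩
  have : ∀ y : Fin 9, τ1 y ≠ y → ∃ k : Fin 8, (τ1 ^ k.val) 0 = y := by decide
  obtain ⟨k, hk⟩ := this y hy
  exact ⟨(k.val : ℤ), by rw [zpow_natCast]; exact hk⟩

theorem τa_cycle : τa.IsCycle := by
  refine ⟨0, by decide, fun y hy => ?_⟩
  have : ∀ y : Fin 9, τa y ≠ y → ∃ k : Fin 4, (τa ^ k.val) 0 = y := by decide
  obtain ⟨k, hk⟩ := this y hy
  exact ⟨(k.val : ℤ), by rw [zpow_natCast]; exact hk⟩

theorem τb_cycle : τb.IsCycle := by
  refine ⟨4, by decide, fun y hy => ?_⟩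
  have : ∀ y : Fin 9, τb y ≠ y → ∃ k : Fin 4, (τb ^ k.val) 4 = y := by decide
  obtain ⟨k, hk⟩ := this y hy
  exact ⟨(k.val : ℤ), by rw [zpow_natCast]; exact hk⟩

theorem τ1_type : τ1.cycleType = {8} := by
  rw [τ1_cycle.cycleType]
  decide

theorem τ2_type : (τa * τb).cycleType = {4, 4} := by
  have hd : τa.Disjoint τb := by
    intro x
    revert x
    decide
  rw [hd.cycleType_mul, τa_cycle.cycleType, τb_cycle.cycleType]
  decide

/-- normal form of the antimorphism -/
theorem normal_form (B : Fin 9 → Fin 9 → Bool) (hs : ∀ u v, u ≠ v → B u v = B v u)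
    (σ : Perm (Fin 9)) (hσ : ∀ u v, u ≠ v → B (σ u) (σ v) = !B u v) :
    ∃ π : Perm (Fin 9),
      (∀ u v, u ≠ v → B (π (τ1 u)) (π (τ1 v)) = !B (π u) (π v)) ∨
      (∀ u v, u ≠ v → B (π ((τa * τb) u)) (π ((τa * τb) v)) = !B (π u) (π v)) := by
  rcases cycleType_cases B hs σ hσ with h | h
  · have hc : IsConj τ1 σ := Perm.isConj_iff_cycleType_eq.mpr (τ1_type.trans h.symm)
    obtain ⟨π, hπ⟩ := isConj_iff.mp hc
    refine ⟨π, Or.inl fun u v huv => ?_⟩
    have h1 : ∀ u, π (τ1 u) = σ (π u) := by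
      intro u
      rw [← hπ]
      simp
    rw [h1, h1]
    exact hσ _ _ (fun h => huv (π.injective h))
  · have hc : IsConj (τa * τb) σ := Perm.isConj_iff_cycleType_eq.mpr (τ2_type.trans h.symm)
    obtain ⟨π, hπ⟩ := isConj_iff.mp hc
    refine ⟨π, Or.inr fun u v huv => ?_⟩
    have h1 : ∀ u, π ((τa * τb) u) = σ (π u) := by
      intro u
      rw [← hπ]
      simp
    rw [h1, h1]
    exact hσ _ _ (fun h => huv (π.injective h))

end H721R3.K9
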