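import Mathlib

/-! An explicit biplanar drawing of `K₉` with one crossing. -/

set_option autoImplicit false

namespace H721R3.K9

/-- first coordinates of the vertices in the two planes -/
def PX : Fin 2 → Fin 9 → ℤ := ![![1, 11, 10, 7, 11, 5, 3, 6, 6], ![10, 9, 0, 9, 12, 13, 3, 2, 11]]

/-- second coordinates of the vertices in the two planes -/
def PY : Fin 2 → Fin 9 → ℤ := ![![0, 8, 1, 2, 13, 10, 13, 9, 1], ![10, 10, 7, 6, 6, 5, 12, 7, 13]]

/-- the plane of an edge -/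
def col : Fin 9 → Fin 9 → Fin 2 := ![![0, 1, 0, 0, 1, 0, 0, 1, 0], ![1, 0, 0, 0, 0, 0, 0, 1, 1], ![0, 0, 0, 1, 1, 1, 1, 1, 0], ![0, 0, 1, 0, 1, 1, 0, 0, 0], ![1, 0, 1, 1, 0, 1, 0, 1, 1], ![0, 0, 1, 1, 1, 0, 0, 0, 1], ![0, 0, 1, 0, 0, 0, 0, 1, 1], ![1, 1, 1, 0, 1, 0, 1, 0, 1], ![0, 1, 0, 0, 1, 1, 1, 1, 0]]

/-- orientation of a triple of vertices -/
def crZ (i : Fin 2) (u v w : Fin 9) : ℤ :=
  (PX i v - PX i u) * (PY i w - PY i u) - (PY i v - PY i u) * (PX i w - PX i u)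

/-- the eight symbols of the unique crossing -/
def special : List (Fin 2 × Fin 9 × Fin 9 × Fin 9 × Fin 9) := [(0, 0, 5, 3, 6), (0, 0, 5, 6, 3), (0, 3, 6, 0, 5), (0, 3, 6, 5, 0), (0, 5, 0, 3, 6), (0, 5, 0, 6, 3), (0, 6, 3, 0, 5), (0, 6, 3, 5, 0)]

theorem col_symm : ∀ u v : Fin 9, col u v = col v u := by decide +kernel

theorem crZ_ne : ∀ (i : Fin 2) (u v w : Fin 9), u ≠ v → u ≠ w → v ≠ w → crZ i u v w ≠ 0 := by
  decide +kernel

/-- separation test for two edges -/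
def sepB (i : Fin 2) (u v w x : Fin 9) : Bool :=
  decide (u = v) || decide (w = x) || !decide (col u v = i) || !decide (col w x = i) ||
  (decide (u = w) && decide (v = x)) || (decide (u = x) && decide (v = w)) ||
  (decide (0 ≤ crZ i u v w * crZ i u v x) && (!decide (crZ i u v w = 0) || !decide (crZ i u v x = 0))) ||
  (decide (0 ≤ crZ i w x u * crZ i w x v) && (!decide (crZ i w x u = 0) || !decide (crZ i w x v = 0))) ||
  special.contains (i, u, v, w, x)

theorem sepB_all : ∀ (i : Fin 2) (u v w x : Fin 9), sepB i u v w x = true := by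
  decide +kernel

theorem sep (i : Fin 2) (u v w x : Fin 9) (h1 : u ≠ v) (h2 : w ≠ x) (h3 : col u v = i)
    (h4 : col w x = i) (h5 : ¬ (u = w ∧ v = x)) (h6 : ¬ (u = x ∧ v = w)) :
    (0 ≤ crZ i u v w * crZ i u v x ∧ (crZ i u v w ≠ 0 ∨ crZ i u v x ≠ 0)) ∨
    (0 ≤ crZ i w x u * crZ i w x v ∧ (crZ i w x u ≠ 0 ∨ crZ i w x v ≠ 0)) ∨
    (i, u, v, w, x) ∈ special := by
  have h := sepB_all i u v w x
  simp only [sepB, Bool.or_eq_true, Bool.and_eq_true, decide_eq_true_eq, Bool.not_eq_true',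
    decide_eq_false_iff_not, List.contains_iff_mem] at h
  tauto

theorem special_all : (special.all fun y => !decide (crZ y.1 y.2.2.2.1 y.2.2.2.2 y.2.1 = 0)) = true := by
  decide +kernel

theorem special_ne (y : Fin 2 × Fin 9 × Fin 9 × Fin 9 × Fin 9) (hy : y ∈ special) :
    crZ y.1 y.2.2.2.1 y.2.2.2.2 y.2.1 ≠ 0 := by
  have h := special_all
  rw [List.all_eq_true] at h
  have := h y hy
  simpa using this

end H721R3.K9
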