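import Pool.Agent.H721R3.K9.Check
import Pool.Agent.H721R3.K9.Cycle

/-! Self-complementary graphs on nine vertices have no plane drawing. -/

set_option autoImplicit false

namespace H721R3.K9
open Pool.Agent.Helper805.CHS Equiv

theorem IsDrawing.comap {V W : Type} {G : SimpleGraph V} {H : SimpleGraph W} {p : V → ℂ}
    {γ : V → V → unitInterval → ℂ} (hD : IsDrawing G p γ) (e : W → V)
    (he : Function.Injective e) (hadj : ∀ u v, H.Adj u v → G.Adj (e u) (e v)) :
    IsDrawing H (fun w => p (e w)) (fun u v => γ (e u) (e v)) := by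
  refine ⟨hD.inj.comp he, fun u v h => hD.cont _ _ (hadj u v h),
    fun u v h => hD.zero _ _ (hadj u v h), fun u v h => hD.one _ _ (hadj u v h), ?_, ?_⟩
  · intro u v h z t ht
    rcases hD.pts _ _ (hadj u v h) (e z) t ht with h1 | h1
    · exact Or.inl (he h1)
    · exact Or.inr (he h1)
  · intro u v w x huv hwx h1 h2 h3 h4 t s hts
    exact hD.cross _ _ _ _ (hadj u v huv) (hadj w x hwx) (he.ne h1) (he.ne h2) (he.ne h3)
      (he.ne h4) t s hts

theorem exists_bits (n : ℕ) (f : ℕ → Bool) : ∃ k < 2 ^ n, ∀ i < n, k.testBit i = f i := by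
  induction n with
  | zero => exact ⟨0, by norm_num, by omega⟩
  | succ n ih =>
    obtain ⟨k, hk, hki⟩ := ih
    refine ⟨k + 2 ^ n * (f n).toNat, ?_, ?_⟩
    · rw [pow_succ]
      cases f n <;> simp <;> omega
    · intro i hi
      cases hf : f n with
      | false =>
        simp only [Bool.toNat_false, mul_zero, add_zero]
        rcases Nat.lt_succ_iff_lt_or_eq.mp hi with h | h
        · exact hki i h
        · subst h
          rw [hf]
          exact Nat.testBit_lt_two_pow hk
      | true =>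
        simp only [Bool.toNat_true, mul_one]
        rcases Nat.lt_succ_iff_lt_or_eq.mp hi with h | h
        · rw [Nat.add_comm, Nat.testBit_two_pow_add_gt h]
          exact hki i h
        · subst h
          rw [hf, Nat.add_comm, Nat.testBit_two_pow_add_eq]
          rw [Nat.testBit_lt_two_pow hk]
          rfl

/-- number modulo nine as a vertex -/
def vx (n : ℕ) : Fin 9 := ⟨n % 9, Nat.mod_lt _ (by norm_num)⟩

theorem table1_aux : ∀ u v : Fin 9, u ≠ v →
    (idxN1 >>> (4 * (9 * u.val + v.val))) % 16 < 5 ∧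
    vx (repU1.getD ((idxN1 >>> (4 * (9 * u.val + v.val))) % 16) 0) ≠
      vx (repV1.getD ((idxN1 >>> (4 * (9 * u.val + v.val))) % 16) 0) ∧
      (((τ1 ^ ((kN1 >>> (4 * (9 * u.val + v.val))) % 16))
          (vx (repU1.getD ((idxN1 >>> (4 * (9 * u.val + v.val))) % 16) 0)) = u ∧
        (τ1 ^ ((kN1 >>> (4 * (9 * u.val + v.val))) % 16))
          (vx (repV1.getD ((idxN1 >>> (4 * (9 * u.val + v.val))) % 16) 0)) = v) ∨
       ((τ1 ^ ((kN1 >>> (4 * (9 * u.val + v.val))) % 16))
          (vx (repU1.getD ((idxN1 >>> (4 * (9 * u.val + v.val))) % 16) 0)) = v ∧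
        (τ1 ^ ((kN1 >>> (4 * (9 * u.val + v.val))) % 16))
          (vx (repV1.getD ((idxN1 >>> (4 * (9 * u.val + v.val))) % 16) 0)) = u)) ∧
      (parN1.testBit (9 * u.val + v.val) =
        decide (((kN1 >>> (4 * (9 * u.val + v.val))) % 16) % 2 = 1)) := by
  decide +kernel

theorem table2_aux : ∀ u v : Fin 9, u ≠ v →
    (idxN2 >>> (4 * (9 * u.val + v.val))) % 16 < 10 ∧
    vx (repU2.getD ((idxN2 >>> (4 * (9 * u.val + v.val))) % 16) 0) ≠
      vx (repV2.getD ((idxN2 >>> (4 * (9 * u.val + v.val))) % 16) 0) ∧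
      ((((τa * τb) ^ ((kN2 >>> (4 * (9 * u.val + v.val))) % 16))
          (vx (repU2.getD ((idxN2 >>> (4 * (9 * u.val + v.val))) % 16) 0)) = u ∧
        ((τa * τb) ^ ((kN2 >>> (4 * (9 * u.val + v.val))) % 16))
          (vx (repV2.getD ((idxN2 >>> (4 * (9 * u.val + v.val))) % 16) 0)) = v) ∨
       (((τa * τb) ^ ((kN2 >>> (4 * (9 * u.val + v.val))) % 16))
          (vx (repU2.getD ((idxN2 >>> (4 * (9 * u.val + v.val))) % 16) 0)) = v ∧
        ((τa * τb) ^ ((kN2 >>> (4 * (9 * u.val + v.val))) % 16))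
          (vx (repV2.getD ((idxN2 >>> (4 * (9 * u.val + v.val))) % 16) 0)) = u)) ∧
      (parN2.testBit (9 * u.val + v.val) =
        decide (((kN2 >>> (4 * (9 * u.val + v.val))) % 16) % 2 = 1)) := by
  decide +kernel

theorem no_draw (B : Fin 9 → Fin 9 → Bool) (hs : ∀ u v, u ≠ v → B u v = B v u)
    (σ : Perm (Fin 9)) (hσ : ∀ u v, u ≠ v → B (σ u) (σ v) = !B u v)
    (G : SimpleGraph (Fin 9)) (hG : ∀ u v, G.Adj u v ↔ u ≠ v ∧ B u v = true)
    (p : Fin 9 → ℂ) (γ : Fin 9 → Fin 9 → unitInterval → ℂ) (hD : IsDrawing G p γ) : False := by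
  obtain ⟨π, hπ⟩ := normal_form B hs σ hσ
  set C : Fin 9 → Fin 9 → Bool := fun u v => B (π u) (π v) with hC
  let H : SimpleGraph (Fin 9) :=
    { Adj := fun u v => u ≠ v ∧ C u v = true
      symm := by
        constructor
        intro u v ⟨h1, h2⟩
        refine ⟨h1.symm, ?_⟩
        have h3 : B (π u) (π v) = true := h2
        rw [hs _ _ (fun h => h1 (π.injective h))] at h3
        exact h3
      loopless := ⟨fun u h => h.1 rfl⟩ }
  have hDH : IsDrawing H (fun w => p (π w)) (fun u v => γ (π u) (π v)) :=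
    IsDrawing.comap hD π π.injective (fun u v h => (hG _ _).mpr
      ⟨fun h' => h.1 (π.injective h'), h.2⟩)
  have hCs : ∀ u v, u ≠ v → C u v = C v u := fun u v huv =>
    hs _ _ (fun h => huv (π.injective h))
  have hmod : K5Model H ∨ K33Model H := by
    rcases hπ with hπ | hπ
    · obtain ⟨k, hk, hki⟩ := exists_bits 5 (fun i => C (vx (repU1.getD i 0)) (vx (repV1.getD i 0)))
      refine model1 H k (by simpa using hk) (fun u v huv h => ⟨huv, ?_⟩)
      obtain ⟨h1, h2, h3, h4⟩ := table1_aux u v huv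
      rw [adj1, hki _ h1, h4] at h
      have h5 := iter C τ1 hπ ((kN1 >>> (4 * (9 * u.val + v.val))) % 16) _ _ h2
      rcases h3 with ⟨h3, h3'⟩ | ⟨h3, h3'⟩
      · rw [h3, h3'] at h5
        rw [h5, h]
      · rw [h3, h3'] at h5
        rw [hCs u v huv, h5, h]
    · obtain ⟨k, hk, hki⟩ := exists_bits 10 (fun i => C (vx (repU2.getD i 0)) (vx (repV2.getD i 0)))
      refine model2 H k (by simpa using hk) (fun u v huv h => ⟨huv, ?_⟩)
      obtain ⟨h1, h2, h3, h4⟩ := table2_aux u v huv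
      rw [adj2, hki _ h1, h4] at h
      have h5 := iter C (τa * τb) hπ ((kN2 >>> (4 * (9 * u.val + v.val))) % 16) _ _ h2
      rcases h3 with ⟨h3, h3'⟩ | ⟨h3, h3'⟩
      · rw [h3, h3'] at h5
        rw [h5, h]
      · rw [h3, h3'] at h5
        rw [hCs u v huv, h5, h]
  rcases hmod with h | h
  · exact no_K5Model hDH h
  · exact no_K33Model hDH h

end H721R3.K9
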