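import Pool.Agent.H721R3.K9.Upper
import Pool.Agent.H721R3.K9.Self

/-! Counting the crossings. -/

set_option autoImplicit false

namespace H721R3.K9
open Pool.Agent.Helper805.CHS

/-- the symbols of the crossings -/
def XSet {V : Type} (G : SimpleGraph V) (c : V → V → Fin 2) (γ : Fin 2 → V → V → ℝ → ℂ) :
    Set (Fin 2 × V × V × V × V × ℂ) :=
  {x : Fin 2 × V × V × V × V × ℂ |
    G.Adj x.2.1 x.2.2.1 ∧ G.Adj x.2.2.2.1 x.2.2.2.2.1 ∧
    c x.2.1 x.2.2.1 = x.1 ∧ c x.2.2.2.1 x.2.2.2.2.1 = x.1 ∧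
    ¬ (x.2.1 = x.2.2.2.1 ∧ x.2.2.1 = x.2.2.2.2.1) ∧
    ¬ (x.2.1 = x.2.2.2.2.1 ∧ x.2.2.1 = x.2.2.2.1) ∧
    (∃ t : ℝ, 0 < t ∧ t < 1 ∧ γ x.1 x.2.1 x.2.2.1 t = x.2.2.2.2.2) ∧
    (∃ t : ℝ, 0 < t ∧ t < 1 ∧ γ x.1 x.2.2.2.1 x.2.2.2.2.1 t = x.2.2.2.2.2)}

/-- a biplanar drawing -/
def Good {V : Type} (G : SimpleGraph V) (c : V → V → Fin 2) (p : Fin 2 → V → ℂ)
    (γ : Fin 2 → V → V → ℝ → ℂ) : Prop :=
  (∀ u v : V, G.Adj u v → c u v = c v u) ∧
    (∀ i : Fin 2, Function.Injective (p i)) ∧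
    (∀ i : Fin 2, ∀ u v : V, G.Adj u v → c u v = i →
      ContinuousOn (γ i u v) (Set.Icc (0:ℝ) 1) ∧
      Set.InjOn (γ i u v) (Set.Icc (0:ℝ) 1) ∧
      γ i u v 0 = p i u ∧ γ i u v 1 = p i v ∧
      (∀ t : ℝ, 0 ≤ t → t ≤ 1 → γ i v u t = γ i u v (1 - t)) ∧
      ∀ t : ℝ, 0 < t → t < 1 → ∀ w : V, γ i u v t ≠ p i w) ∧
    Set.Finite (XSet G c γ)

/-- index part of a symbol -/
def ix (x : Fin 2 × Fin 9 × Fin 9 × Fin 9 × Fin 9 × ℂ) : Fin 2 × Fin 9 × Fin 9 × Fin 9 × Fin 9 :=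
  (x.1, x.2.1, x.2.2.1, x.2.2.2.1, x.2.2.2.2.1)

theorem ix_mem : ∀ x ∈ XSet (⊤ : SimpleGraph (Fin 9)) col arc, ix x ∈ {y | y ∈ special} := by
  rintro ⟨i, u, v, w, x, z⟩ ⟨h1, h2, h3, h4, h5, h6, h7, h8⟩
  exact cross_special i u v w x h1 h2 h3 h4 h5 h6 z h7 h8

theorem ix_inj : Set.InjOn ix (XSet (⊤ : SimpleGraph (Fin 9)) col arc) := by
  rintro ⟨i, u, v, w, x, z⟩ hx ⟨i', u', v', w', x', z'⟩ hx' h
  have hs := ix_mem _ hx
  simp only [ix, Prod.mk.injEq] at h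
  obtain ⟨rfl, rfl, rfl, rfl, rfl⟩ := h
  obtain ⟨h1, h2, h3, h4, h5, h6, h7, h8⟩ := hx
  obtain ⟨h1', h2', h3', h4', h5', h6', h7', h8'⟩ := hx'
  have := special_unique i u v w x hs z z' h7 h8 h7' h8'
  rw [this]

theorem special_finite : {y | y ∈ special}.Finite := List.finite_toSet special

theorem upper_good : Good (⊤ : SimpleGraph (Fin 9)) col pt arc := by
  refine ⟨fun u v _ => col_symm u v, pt_inj, ?_, ?_⟩
  · intro i u v huv _
    have huv' : u ≠ v := huv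
    exact ⟨(arc_cont i u v).continuousOn, (arc_inj i u v huv').injOn, arc_zero i u v,
      arc_one i u v, fun t _ _ => arc_rev i u v t, fun t h0 h1 w => arc_ne_pt i u v huv' t h0 h1 w⟩
  · exact Set.Finite.of_injOn ix_mem ix_inj special_finite

theorem special_ncard : {y | y ∈ special}.ncard ≤ 8 := by
  have h : {y | y ∈ special} = ((special.toFinset : Finset _) : Set _) := by
    ext y; simp
  rw [h, Set.ncard_coe_finset]
  exact (List.toFinset_card_le special).trans (by decide)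

theorem upper_card : (XSet (⊤ : SimpleGraph (Fin 9)) col arc).ncard ≤ 8 :=
  (Set.ncard_le_ncard_of_injOn ix ix_mem ix_inj special_finite).trans special_ncard

section Lower

variable {V : Type} (G : SimpleGraph V) (c : V → V → Fin 2) (p : Fin 2 → V → ℂ)
  (γ : Fin 2 → V → V → ℝ → ℂ)

/-- the eight variants of a symbol -/
def variant : (Fin 2 × V × V × V × V × ℂ) → (Bool × Bool × Bool) → Fin 2 × V × V × V × V × ℂ
  | (i, u, v, w, y, z), (true, true, true) => (i, u, v, w, y, z)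
  | (i, u, v, w, y, z), (true, false, true) => (i, u, v, y, w, z)
  | (i, u, v, w, y, z), (false, true, true) => (i, v, u, w, y, z)
  | (i, u, v, w, y, z), (false, false, true) => (i, v, u, y, w, z)
  | (i, u, v, w, y, z), (true, true, false) => (i, w, y, u, v, z)
  | (i, u, v, w, y, z), (true, false, false) => (i, y, w, u, v, z)
  | (i, u, v, w, y, z), (false, true, false) => (i, w, y, v, u, z)
  | (i, u, v, w, y, z), (false, false, false) => (i, y, w, v, u, z)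

theorem variant_mem (hg : Good G c p γ) (x : Fin 2 × V × V × V × V × ℂ) (hx : x ∈ XSet G c γ)
    (b : Bool × Bool × Bool) : variant x b ∈ XSet G c γ := by
  obtain ⟨i, u, v, w, y, z⟩ := x
  obtain ⟨b1, b2, b3⟩ := b
  obtain ⟨h1, h2, h3, h4, h5, h6, h7, h8⟩ := hx
  simp only at h1 h2 h3 h4 h5 h6 h7 h8
  have hrev : ∀ u v : V, G.Adj u v → c u v = i → (∃ t : ℝ, 0 < t ∧ t < 1 ∧ γ i u v t = z) →
      (∃ t : ℝ, 0 < t ∧ t < 1 ∧ γ i v u t = z) := by
    rintro u v huv hc ⟨t, ht0, ht1, ht⟩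
    refine ⟨1 - t, by linarith, by linarith, ?_⟩
    rw [(hg.2.2.1 i u v huv hc).2.2.2.2.1 (1 - t) (by linarith) (by linarith)]
    rw [sub_sub_cancel]
    exact ht
  have h7' := hrev u v h1 h3 h7
  have h8' := hrev w y h2 h4 h8
  have h3' : c v u = i := by rw [← hg.1 u v h1]; exact h3
  have h4' : c y w = i := by rw [← hg.1 w y h2]; exact h4
  have h1' := h1.symm
  have h2' := h2.symm
  cases b1 <;> cases b2 <;> cases b3
  · exact ⟨h2', h1', h4', h3', fun h => h5 ⟨h.2.symm, h.1.symm⟩, fun h => h6 ⟨h.1.symm, h.2.symm⟩, h8', h7'⟩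
  · exact ⟨h1', h2', h3', h4', fun h => h5 ⟨h.2, h.1⟩, fun h => h6 ⟨h.2, h.1⟩, h7', h8'⟩
  · exact ⟨h2, h1', h4, h3', fun h => h6 ⟨h.2.symm, h.1.symm⟩, fun h => h5 ⟨h.1.symm, h.2.symm⟩, h8, h7'⟩
  · exact ⟨h1', h2, h3', h4, fun h => h6 ⟨h.2, h.1⟩, fun h => h5 ⟨h.2, h.1⟩, h7', h8⟩
  · exact ⟨h2', h1, h4', h3, fun h => h6 ⟨h.1.symm, h.2.symm⟩, fun h => h5 ⟨h.2.symm, h.1.symm⟩, h8', h7⟩
  · exact ⟨h1, h2', h3, h4', fun h => h6 ⟨h.1, h.2⟩, fun h => h5 ⟨h.1, h.2⟩, h7, h8'⟩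
  · exact ⟨h2, h1, h4, h3, fun h => h5 ⟨h.1.symm, h.2.symm⟩, fun h => h6 ⟨h.2.symm, h.1.symm⟩, h8, h7⟩
  · exact ⟨h1, h2, h3, h4, h5, h6, h7, h8⟩

theorem variant_inj (x : Fin 2 × V × V × V × V × ℂ) (hx : x ∈ XSet G c γ) :
    Function.Injective (variant x) := by
  obtain ⟨i, u, v, w, y, z⟩ := x
  obtain ⟨h1, h2, h3, h4, h5, h6, h7, h8⟩ := hx
  simp only at h1 h2 h3 h4 h5 h6 h7 h8
  have n1 : u ≠ v := h1.ne
  have n2 : w ≠ y := h2.ne
  rintro ⟨b1, b2, b3⟩ ⟨b1', b2', b3'⟩ h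
  cases b1 <;> cases b2 <;> cases b3 <;> cases b1' <;> cases b2' <;> cases b3' <;>
    first | rfl | (exfalso; simp only [variant, Prod.mk.injEq] at h; grind)

theorem variant_fst (x : Fin 2 × V × V × V × V × ℂ) (b : Bool × Bool × Bool) :
    (variant x b).1 = x.1 := by
  obtain ⟨i, u, v, w, y, z⟩ := x
  obtain ⟨b1, b2, b3⟩ := b
  cases b1 <;> cases b2 <;> cases b3 <;> rfl

theorem sixteen (hg : Good G c p γ) (x y : Fin 2 × V × V × V × V × ℂ) (hx : x ∈ XSet G c γ)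
    (hy : y ∈ XSet G c γ) (hx0 : x.1 = 0) (hy1 : y.1 = 1) : 16 ≤ (XSet G c γ).ncard := by
  let f : Bool × (Bool × Bool × Bool) → Fin 2 × V × V × V × V × ℂ := fun b =>
    if b.1 then variant x b.2 else variant y b.2
  have hf : Function.Injective f := by
    rintro ⟨b, b'⟩ ⟨d, d'⟩ h
    cases b <;> cases d
    · have h' : variant y b' = variant y d' := h
      rw [variant_inj G c γ y hy h']
    · have h' : variant y b' = variant x d' := h
      have := congrArg Prod.fst h'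
      rw [variant_fst, variant_fst, hx0, hy1] at this
      exact absurd this (by decide)
    · have h' : variant x b' = variant y d' := h
      have := congrArg Prod.fst h'
      rw [variant_fst, variant_fst, hx0, hy1] at this
      exact absurd this (by decide)
    · have h' : variant x b' = variant x d' := h
      rw [variant_inj G c γ x hx h']
  have h1 : (f '' Set.univ).ncard = 16 := by
    rw [Set.ncard_image_of_injective _ hf, Set.ncard_univ, Nat.card_eq_fintype_card]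
    rfl
  rw [← h1]
  refine Set.ncard_le_ncard ?_ hg.2.2.2
  rintro _ ⟨⟨b, b'⟩, -, rfl⟩
  cases b
  · exact variant_mem G c p γ hg y hy b'
  · exact variant_mem G c p γ hg x hx b'

/-- the drawing of one plane without crossings -/
theorem plane_drawing (hg : Good G c p γ) (i : Fin 2) (hno : ∀ x ∈ XSet G c γ, x.1 ≠ i)
    (H : SimpleGraph V) (hH : ∀ u v, H.Adj u v → G.Adj u v ∧ c u v = i) :
    IsDrawing H (p i) (fun u v (t : unitInterval) => γ i u v t) := by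
  obtain ⟨hs, hinj, harc, -⟩ := hg
  have hpts : ∀ u v, H.Adj u v → ∀ z, ∀ t : unitInterval, γ i u v t = p i z → z = u ∨ z = v := by
    intro u v huv z t ht
    obtain ⟨hG, hc⟩ := hH u v huv
    obtain ⟨-, -, h0, h1, -, hint⟩ := harc i u v hG hc
    rcases eq_or_lt_of_le t.2.1 with h | h
    · left
      rw [← h, h0] at ht
      exact (hinj i ht).symm
    · rcases eq_or_lt_of_le t.2.2 with h' | h'
      · right
        rw [h', h1] at ht
        exact (hinj i ht).symm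
      · exact absurd ht (hint _ h h' z)
  refine ⟨hinj i, ?_, ?_, ?_, hpts, ?_⟩
  · intro u v huv
    obtain ⟨hG, hc⟩ := hH u v huv
    exact (harc i u v hG hc).1.restrict
  · intro u v huv
    obtain ⟨hG, hc⟩ := hH u v huv
    exact (harc i u v hG hc).2.2.1
  · intro u v huv
    obtain ⟨hG, hc⟩ := hH u v huv
    exact (harc i u v hG hc).2.2.2.1
  · intro u v w x huv hwx h1 h2 h3 h4 t s hts
    obtain ⟨hG, hc⟩ := hH u v huv
    obtain ⟨hG', hc'⟩ := hH w x hwx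
    obtain ⟨-, -, hu0, hu1, -, hint⟩ := harc i u v hG hc
    obtain ⟨-, -, hw0, hw1, -, hint'⟩ := harc i w x hG' hc'
    rcases eq_or_lt_of_le t.2.1 with h | h
    · left
      rw [← h]; exact hu0
    rcases eq_or_lt_of_le t.2.2 with h' | h'
    · right
      rw [h']; exact hu1
    rcases eq_or_lt_of_le s.2.1 with k | k
    · exfalso
      rw [← k, hw0] at hts
      rcases hpts u v huv w t hts with e | e
      · exact h1 e.symm
      · exact h3 e.symm
    rcases eq_or_lt_of_le s.2.2 with k' | k'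
    · exfalso
      rw [k', hw1] at hts
      rcases hpts u v huv x t hts with e | e
      · exact h2 e.symm
      · exact h4 e.symm
    exfalso
    refine hno (i, u, v, w, x, γ i u v t) ⟨hG, hG', hc, hc', ?_, ?_, ?_, ?_⟩ rfl
    · rintro ⟨e, -⟩; exact h1 e
    · rintro ⟨e, -⟩; exact h2 e
    · exact ⟨t, h, h', rfl⟩
    · exact ⟨s, k, k', hts.symm⟩

end Lower

theorem main (c : Fin 9 → Fin 9 → Fin 2) (p : Fin 2 → Fin 9 → ℂ)
    (γ : Fin 2 → Fin 9 → Fin 9 → ℝ → ℂ) (hg : Good (⊤ : SimpleGraph (Fin 9)) c p γ)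
    (φ : SimpleGraph.fromRel (fun u v => (⊤ : SimpleGraph (Fin 9)).Adj u v ∧ c u v = 0) ≃g
          SimpleGraph.fromRel (fun u v => (⊤ : SimpleGraph (Fin 9)).Adj u v ∧ c u v = 1))
    (hle : (XSet (⊤ : SimpleGraph (Fin 9)) c γ).ncard ≤ 8) : False := by
  have hadj : ∀ i : Fin 2, ∀ u v : Fin 9,
      (SimpleGraph.fromRel (fun u v => (⊤ : SimpleGraph (Fin 9)).Adj u v ∧ c u v = i)).Adj u v ↔
        u ≠ v ∧ c u v = i := by
    intro i u v
    rw [SimpleGraph.fromRel_adj]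
    constructor
    · rintro ⟨h1, ⟨-, h2⟩ | ⟨-, h2⟩⟩
      · exact ⟨h1, h2⟩
      · exact ⟨h1, by rw [hg.1 u v h1]; exact h2⟩
    · rintro ⟨h1, h2⟩
      exact ⟨h1, Or.inl ⟨h1, h2⟩⟩
  -- the antimorphism
  have hφ : ∀ u v : Fin 9, u ≠ v → (c (φ u) (φ v) = 1 ↔ c u v = 0) := by
    intro u v huv
    have h1 := φ.map_rel_iff (a := u) (b := v)
    rw [hadj, hadj] at h1
    have h2 : φ u ≠ φ v := fun h => huv (φ.injective h)
    constructor
    · intro h
      exact (h1.mp ⟨h2, h⟩).2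
    · intro h
      exact (h1.mpr ⟨huv, h⟩).2
  have hdraw : ∃ (q : Fin 9 → ℂ) (δ : Fin 9 → Fin 9 → unitInterval → ℂ),
      IsDrawing (SimpleGraph.fromRel (fun u v => (⊤ : SimpleGraph (Fin 9)).Adj u v ∧ c u v = 0))
        q δ := by
    by_cases h0 : ∀ x ∈ XSet (⊤ : SimpleGraph (Fin 9)) c γ, x.1 ≠ 0
    · exact ⟨_, _, plane_drawing _ c p γ hg 0 h0 _ (fun u v h => (hadj 0 u v).mp h)⟩
    · push Not at h0
      obtain ⟨x, hx, hx0⟩ := h0
      have h1 : ∀ y ∈ XSet (⊤ : SimpleGraph (Fin 9)) c γ, y.1 ≠ 1 := by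
        intro y hy hy1
        have := sixteen _ c p γ hg x y hx hy hx0 hy1
        omega
      have hD := plane_drawing _ c p γ hg 1 h1
        (SimpleGraph.fromRel (fun u v => (⊤ : SimpleGraph (Fin 9)).Adj u v ∧ c u v = 1))
        (fun u v h => (hadj 1 u v).mp h)
      exact ⟨_, _, IsDrawing.comap hD φ φ.injective (fun u v h => φ.map_rel_iff.mpr h)⟩
  obtain ⟨q, δ, hD⟩ := hdraw
  refine no_draw (fun u v => decide (c u v = 0)) ?_ φ.toEquiv ?_ _ ?_ q δ hD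
  · intro u v huv
    have := hg.1 u v huv
    simp only [this]
  · intro u v huv
    have h1 := hφ u v huv
    have h2 : ∀ a : Fin 2, a = 1 ↔ a ≠ 0 := by decide
    have h3 : (φ.toEquiv u) = φ u := rfl
    have h4 : (φ.toEquiv v) = φ v := rfl
    rw [h3, h4]
    by_cases h : c u v = 0
    · have h5 := h1.mpr h
      simp [h, h5]
    · have h5 : ¬ c (φ u) (φ v) = 1 := fun h' => h (h1.mp h')
      have h6 : c (φ u) (φ v) = 0 := by
        by_contra h7
        exact h5 ((h2 _).mpr h7)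
      simp [h, h6]
  · intro u v
    rw [hadj 0 u v]
    simp

end H721R3.K9
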