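import Pool.Agent.H721R3.K9.Data

/-! The straight line drawing. -/

set_option autoImplicit false

namespace H721R3.K9

/-- the points -/
noncomputable def pt (i : Fin 2) (v : Fin 9) : ℂ := ⟨(PX i v : ℝ), (PY i v : ℝ)⟩

/-- the straight arcs -/
noncomputable def arc (i : Fin 2) (u v : Fin 9) (t : ℝ) : ℂ :=
  ⟨(1 - t) * (PX i u : ℝ) + t * (PX i v : ℝ), (1 - t) * (PY i u : ℝ) + t * (PY i v : ℝ)⟩

/-- orientation of two vertices and a point -/
noncomputable def crR (i : Fin 2) (u v : Fin 9) (z : ℂ) : ℝ :=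
  ((PX i v : ℝ) - PX i u) * (z.im - PY i u) - ((PY i v : ℝ) - PY i u) * (z.re - PX i u)

theorem crR_pt (i : Fin 2) (u v w : Fin 9) : crR i u v (pt i w) = (crZ i u v w : ℝ) := by
  simp only [crR, pt, crZ]
  push_cast
  ring

theorem crR_arc (i : Fin 2) (u v w x : Fin 9) (t : ℝ) :
    crR i u v (arc i w x t) = (1 - t) * (crZ i u v w : ℝ) + t * (crZ i u v x : ℝ) := by
  simp only [crR, arc, crZ]
  push_cast
  ring

theorem crR_self (i : Fin 2) (u v : Fin 9) (t : ℝ) : crR i u v (arc i u v t) = 0 := by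
  simp only [crR, arc]
  ring

theorem ex_third : ∀ u v : Fin 9, ∃ w : Fin 9, u ≠ w ∧ v ≠ w := by decide

theorem pt_inj (i : Fin 2) : Function.Injective (pt i) := by
  intro u v h
  by_contra huv
  obtain ⟨w, hwu, hwv⟩ := ex_third u v
  have h1 := crR_pt i u w v
  rw [← h, crR_pt] at h1
  have h2 : crZ i u w u = 0 := by simp [crZ]
  rw [h2] at h1
  exact crZ_ne i u w v hwu huv (fun h => hwv h.symm) (by exact_mod_cast h1.symm)

theorem arc_zero (i : Fin 2) (u v : Fin 9) : arc i u v 0 = pt i u := by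
  simp [arc, pt]

theorem arc_one (i : Fin 2) (u v : Fin 9) : arc i u v 1 = pt i v := by
  simp [arc, pt]

theorem arc_rev (i : Fin 2) (u v : Fin 9) (t : ℝ) : arc i v u t = arc i u v (1 - t) := by
  simp only [arc]
  congr 1 <;> ring

theorem arc_cont (i : Fin 2) (u v : Fin 9) : Continuous (arc i u v) := by
  have : arc i u v = fun t : ℝ => ((((1 - t) * (PX i u : ℝ) + t * (PX i v : ℝ) : ℝ) : ℂ) +
      (((1 - t) * (PY i u : ℝ) + t * (PY i v : ℝ) : ℝ) : ℂ) * Complex.I) := by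
    funext t
    apply Complex.ext <;> simp [arc]
  rw [this]
  fun_prop

theorem arc_inj (i : Fin 2) (u v : Fin 9) (huv : u ≠ v) : Function.Injective (arc i u v) := by
  intro s t h
  obtain ⟨w, hwu, hwv⟩ := ex_third u v
  have h1 := crR_arc i u w u v s
  rw [h, crR_arc] at h1
  have h2 : crZ i u w u = 0 := by simp [crZ]
  rw [h2] at h1
  have h3 : (crZ i u w v : ℝ) ≠ 0 := by
    exact_mod_cast crZ_ne i u w v hwu huv (fun h => hwv h.symm)
  have h4 : (t - s) * (crZ i u w v : ℝ) = 0 := by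
    push_cast at h1
    linarith
  rcases mul_eq_zero.mp h4 with h5 | h5
  · linarith
  · exact absurd h5 h3

theorem arc_ne_pt (i : Fin 2) (u v : Fin 9) (huv : u ≠ v) (t : ℝ) (h0 : 0 < t) (h1 : t < 1)
    (w : Fin 9) : arc i u v t ≠ pt i w := by
  intro h
  by_cases hwu : u = w
  · subst hwu
    rw [← arc_zero i u v] at h
    have := arc_inj i u v huv h
    linarith
  · by_cases hwv : v = w
    · subst hwv
      rw [← arc_one i u v] at h
      have := arc_inj i u v huv h
      linarith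
    · have h2 := crR_self i u v t
      rw [h, crR_pt] at h2
      exact crZ_ne i u v w huv hwu hwv (by exact_mod_cast h2)

theorem comb_ne {a b t : ℝ} (hab : 0 ≤ a * b) (hne : a ≠ 0 ∨ b ≠ 0) (h0 : 0 < t) (h1 : t < 1) :
    (1 - t) * a + t * b ≠ 0 := by
  intro h
  have h2 : (1 - t) * a = -(t * b) := by linarith
  have h3 : (1 - t) * (a * a) = -(t * (a * b)) := by
    have : (1 - t) * (a * a) = ((1 - t) * a) * a := by ring
    rw [this, h2]; ring
  have h4 : 0 ≤ (1 - t) * (a * a) := mul_nonneg (by linarith) (mul_self_nonneg a)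
  have h5 : 0 ≤ t * (a * b) := mul_nonneg h0.le hab
  have h6 : (1 - t) * (a * a) = 0 := by linarith
  have ha : a = 0 := by
    rcases mul_eq_zero.mp h6 with h | h
    · linarith
    · exact mul_self_eq_zero.mp h
  rcases hne with h | h
  · exact h ha
  · rw [ha] at h2
    have : t * b = 0 := by linarith
    rcases mul_eq_zero.mp this with h' | h'
    · linarith
    · exact h h'

theorem cross_special (i : Fin 2) (u v w x : Fin 9) (h1 : u ≠ v) (h2 : w ≠ x) (h3 : col u v = i)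
    (h4 : col w x = i) (h5 : ¬ (u = w ∧ v = x)) (h6 : ¬ (u = x ∧ v = w)) (z : ℂ)
    (ht : ∃ t : ℝ, 0 < t ∧ t < 1 ∧ arc i u v t = z) (hs : ∃ s : ℝ, 0 < s ∧ s < 1 ∧ arc i w x s = z) :
    (i, u, v, w, x) ∈ special := by
  obtain ⟨t, ht0, ht1, rfl⟩ := ht
  obtain ⟨s, hs0, hs1, hs⟩ := hs
  rcases sep i u v w x h1 h2 h3 h4 h5 h6 with ⟨ha, hb⟩ | ⟨ha, hb⟩ | h
  · exfalso
    have h7 := crR_self i u v t
    rw [← hs, crR_arc] at h7
    refine comb_ne (by exact_mod_cast ha) ?_ hs0 hs1 h7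
    rcases hb with hb | hb
    · left; exact_mod_cast hb
    · right; exact_mod_cast hb
  · exfalso
    have h7 := crR_self i w x s
    rw [hs, crR_arc] at h7
    refine comb_ne (by exact_mod_cast ha) ?_ ht0 ht1 h7
    rcases hb with hb | hb
    · left; exact_mod_cast hb
    · right; exact_mod_cast hb
  · exact h

theorem special_unique (i : Fin 2) (u v w x : Fin 9) (h : (i, u, v, w, x) ∈ special) (z z' : ℂ)
    (ht : ∃ t : ℝ, 0 < t ∧ t < 1 ∧ arc i u v t = z) (hs : ∃ s : ℝ, 0 < s ∧ s < 1 ∧ arc i w x s = z)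
    (ht' : ∃ t : ℝ, 0 < t ∧ t < 1 ∧ arc i u v t = z')
    (hs' : ∃ s : ℝ, 0 < s ∧ s < 1 ∧ arc i w x s = z') : z = z' := by
  obtain ⟨t, ht0, ht1, rfl⟩ := ht
  obtain ⟨s, hs0, hs1, hs⟩ := hs
  obtain ⟨t', ht0', ht1', rfl⟩ := ht'
  obtain ⟨s', hs0', hs1', hs'⟩ := hs'
  have h7 := crR_self i w x s
  rw [hs, crR_arc] at h7
  have h8 := crR_self i w x s'
  rw [hs', crR_arc] at h8
  have h9 : (crZ i w x u : ℝ) ≠ 0 := by exact_mod_cast special_ne _ h
  have h10 : (t - t') * ((crZ i w x v : ℝ) - crZ i w x u) = 0 := by linarith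
  rcases mul_eq_zero.mp h10 with h11 | h11
  · have : t = t' := by linarith
    rw [this]
  · exfalso
    have h12 : (crZ i w x v : ℝ) = crZ i w x u := by linarith
    rw [h12] at h7
    apply h9
    linarith

end H721R3.K9
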